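import Pool.Agent.H6.NE.Stm1

/-!
# NE, parts MI, AM, DEF: moments of tuples in stabilisers
-/

set_option autoImplicit false

open Finset

namespace H62.NE
open H6.NE

/-- Lagrange interpolation at nodes with invertible differences -/
theorem lagr {R : Type*} [CommRing R] (T : Finset R)
    (hT : ∀ s ∈ T, ∀ t ∈ T, s ≠ t → IsUnit (s - t)) (s0 : R) (h0 : s0 ∈ T) :
    ∃ L : ℕ → R, (∑ i ∈ range T.card, L i * s0 ^ i = 1) ∧
      ∀ s ∈ T, s ≠ s0 → ∑ i ∈ range T.card, L i * s ^ i = 0 := by
  classical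
  let P : Polynomial R := ∏ t ∈ T.erase s0,
    (Polynomial.C (Ring.inverse (s0 - t)) * (Polynomial.X - Polynomial.C t))
  have hdeg : P.natDegree < T.card := by
    have h1 : P.natDegree ≤ ∑ t ∈ T.erase s0,
        (Polynomial.C (Ring.inverse (s0 - t)) * (Polynomial.X - Polynomial.C t)).natDegree :=
      Polynomial.natDegree_prod_le _ _
    have h2 : ∑ t ∈ T.erase s0,
        (Polynomial.C (Ring.inverse (s0 - t)) * (Polynomial.X - Polynomial.C t)).natDegree
        ≤ ∑ t ∈ T.erase s0, 1 := by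
      apply Finset.sum_le_sum
      intro t _
      refine (Polynomial.natDegree_C_mul_le _ _).trans ?_
      exact Polynomial.natDegree_X_sub_C_le t
    rw [Finset.sum_const, Finset.card_erase_of_mem h0] at h2
    have : 0 < T.card := Finset.card_pos.2 ⟨s0, h0⟩
    simp at h2
    omega
  refine ⟨P.coeff, ?_, fun s hs h => ?_⟩
  · rw [← Polynomial.eval_eq_sum_range' hdeg s0]
    rw [Polynomial.eval_prod]
    apply Finset.prod_eq_one
    intro t ht
    rw [Finset.mem_erase] at ht
    simp only [Polynomial.eval_mul, Polynomial.eval_C, Polynomial.eval_sub, Polynomial.eval_X]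
    exact Ring.inverse_mul_cancel _ (hT _ h0 _ ht.2 (Ne.symm ht.1))
  · rw [← Polynomial.eval_eq_sum_range' hdeg s]
    rw [Polynomial.eval_prod]
    apply Finset.prod_eq_zero (i := s) (Finset.mem_erase.2 ⟨h, hs⟩)
    simp

theorem ln_pi {p N : ℕ} [Fact p.Prime] {I : Type} [Fintype I] (M : I → Type)
    [∀ i, AddCommGroup (M i)] [∀ i, Module (ZMod (p ^ N)) (M i)] [∀ i, Finite (M i)] :
    ln p (∀ i, M i) = ∑ i, ln p (M i) := by
  unfold ln
  rw [Nat.card_pi, Nat.factorization_prod]
  · simp
  · intro i _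
    exact Nat.card_pos.ne'

section
variable {p N : ℕ} [Fact p.Prime] {Y k : Type} [AddCommGroup Y] [Module (ZMod (p ^ N)) Y] [Finite Y]
  [AddCommGroup k] [Module (ZMod (p ^ N)) k] [Finite k]

/-- filtration by the vanishing of the first moments -/
def Yi (m : ℕ → Y →ₗ[ZMod (p ^ N)] k) (i : ℕ) : Submodule (ZMod (p ^ N)) Y where
  carrier := {y | ∀ j < i, m j y = 0}
  add_mem' := by
    intro a b ha hb j hj
    rw [map_add, ha j hj, hb j hj, add_zero]
  zero_mem' := by intro j _; exact map_zero _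
  smul_mem' := by
    intro c a ha j hj
    rw [map_smul, ha j hj, smul_zero]

theorem filt (hL : S_LEN) (m : ℕ → Y →ₗ[ZMod (p ^ N)] k) (Q : ℕ → Submodule (ZMod (p ^ N)) k)
    (t : ℕ) (hQ : ∀ i < t, ∀ y, (∀ j < i, m j y = 0) → m i y ∈ Q i)
    (hinj : ∀ y, (∀ j < t, m j y = 0) → y = 0) :
    ln p Y ≤ ∑ i ∈ range t, ln p (Q i) := by
  obtain ⟨L1, L2, L3, L4, L5, L6, L7, L8⟩ := hL p N
  have key : ∀ i, i ≤ t → ln p Y ≤ ln p (Yi m i) + ∑ j ∈ range i, ln p (Q j) := by
    intro i
    induction i with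
    | zero =>
      intro _
      have h : (Yi m 0) = ⊤ := by
        rw [eq_top_iff]
        intro y _ j hj
        omega
      rw [h]
      simp only [range_zero, sum_empty, add_zero]
      exact L6 Y (⊤ : Submodule (ZMod (p ^ N)) Y) (Submodule.topEquiv.symm.toLinearMap)
        Submodule.topEquiv.symm.injective
    | succ i ih =>
      intro hi
      have h1 := ih (by omega)
      let f : Yi m i →ₗ[ZMod (p ^ N)] k := (m i).domRestrict (Yi m i)
      have h2 := L1 (Yi m i) k f
      have h3 : ln p (LinearMap.range f) ≤ ln p (Q i) := by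
        apply L4
        rintro _ ⟨y, rfl⟩
        exact hQ i (by omega) y.1 y.2
      have h4 : ln p (LinearMap.ker f) ≤ ln p (Yi m (i + 1)) := by
        let g : LinearMap.ker f →ₗ[ZMod (p ^ N)] Yi m (i + 1) :=
          LinearMap.codRestrict (Yi m (i + 1)) ((Yi m i).subtype ∘ₗ (LinearMap.ker f).subtype) (by
            intro y j hj
            rcases Nat.lt_succ_iff_lt_or_eq.1 hj with h | h
            · exact y.1.2 j h
            · rw [h]
              exact LinearMap.mem_ker.1 y.2)
        apply L6 _ _ g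
        intro a b hab
        apply Subtype.ext
        apply Subtype.ext
        exact congrArg (fun z : Yi m (i + 1) => (z : Y)) hab
      rw [Finset.sum_range_succ]
      omega
  have h := key t le_rfl
  have h0 : ln p (Yi m t) = 0 := by
    have : Yi m t = ⊥ := by
      rw [eq_bot_iff]
      intro y hy
      exact hinj y hy
    rw [this]
    unfold ln
    simp
  omega

end

section
variable {p N : ℕ} [Fact p.Prime] {k V W : Type} [AddCommGroup k]
  [Module (ZMod (p ^ N)) k] [Finite k] [AddCommGroup V] [Module (ZMod (p ^ N)) V] [AddCommGroup W]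
  [Module (ZMod (p ^ N)) W]

/-- moments -/
noncomputable def mom (b : k →ₗ[ZMod (p ^ N)] V →ₗ[ZMod (p ^ N)] W) (x u : V)
    (T : Finset (ZMod (p ^ N))) (i : ℕ) :
    (∀ s : T, Sv b (x + (s : ZMod (p ^ N)) • u)) →ₗ[ZMod (p ^ N)] k :=
  ∑ s : T, ((s : ZMod (p ^ N)) ^ i) •
    ((Sv b (x + (s : ZMod (p ^ N)) • u)).subtype ∘ₗ LinearMap.proj s)

omit [Fact p.Prime] [Finite k] in
theorem mom_apply (b : k →ₗ[ZMod (p ^ N)] V →ₗ[ZMod (p ^ N)] W) (x u : V)
    (T : Finset (ZMod (p ^ N))) (i : ℕ) (y : ∀ s : T, Sv b (x + (s : ZMod (p ^ N)) • u)) :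
    mom b x u T i y = ∑ s : T, ((s : ZMod (p ^ N)) ^ i) • (y s : k) := by
  simp [mom, LinearMap.sum_apply]

omit [Fact p.Prime] [Finite k] in
theorem mom_rel (b : k →ₗ[ZMod (p ^ N)] V →ₗ[ZMod (p ^ N)] W) (x u : V)
    (T : Finset (ZMod (p ^ N))) (i : ℕ) (y : ∀ s : T, Sv b (x + (s : ZMod (p ^ N)) • u)) :
    b (mom b x u T i y) x + b (mom b x u T (i + 1) y) u = 0 := by
  rw [mom_apply, mom_apply, map_sum, map_sum, LinearMap.sum_apply, LinearMap.sum_apply,
    ← Finset.sum_add_distrib]
  apply Finset.sum_eq_zero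
  intro s _
  have h := (mem_Sv b _ _).1 (y s).2
  rw [map_add, map_smul] at h
  rw [map_smul, map_smul, LinearMap.smul_apply, LinearMap.smul_apply, pow_succ, mul_smul,
    ← smul_add, h, smul_zero]

omit [Fact p.Prime] [Finite k] in
theorem mom_inj (b : k →ₗ[ZMod (p ^ N)] V →ₗ[ZMod (p ^ N)] W) (x u : V)
    (T : Finset (ZMod (p ^ N))) (hT : ∀ s ∈ T, ∀ t ∈ T, s ≠ t → IsUnit (s - t))
    (y : ∀ s : T, Sv b (x + (s : ZMod (p ^ N)) • u))
    (h : ∀ i < T.card, mom b x u T i y = 0) : y = 0 := by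
  funext s0
  obtain ⟨L, hL1, hL2⟩ := lagr T hT s0.1 s0.2
  apply Subtype.ext
  have h1 : ∑ i ∈ range T.card, L i • mom b x u T i y = 0 := by
    apply Finset.sum_eq_zero
    intro i hi
    rw [h i (Finset.mem_range.1 hi), smul_zero]
  have h2 : ∑ i ∈ range T.card, L i • mom b x u T i y = (y s0 : k) := by
    simp_rw [mom_apply, Finset.smul_sum]
    rw [Finset.sum_comm]
    rw [Finset.sum_eq_single s0]
    · simp_rw [smul_smul]
      rw [← Finset.sum_smul, hL1, one_smul]
    · intro s _ hs
      simp_rw [smul_smul]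
      rw [← Finset.sum_smul, hL2 s.1 s.2 (fun h => hs (Subtype.ext h)), zero_smul]
    · intro h
      exact absurd (Finset.mem_univ _) h
  rw [← h2, h1]
  rfl

/-- the basic inequality -/
theorem momineq (hL : S_LEN) (b : k →ₗ[ZMod (p ^ N)] V →ₗ[ZMod (p ^ N)] W) (x u : V)
    (T : Finset (ZMod (p ^ N))) (hT : ∀ s ∈ T, ∀ t ∈ T, s ≠ t → IsUnit (s - t))
    (Q : ℕ → Submodule (ZMod (p ^ N)) k)
    (hQ : ∀ i < T.card, ∀ y, (∀ j < i, mom b x u T j y = 0) → mom b x u T i y ∈ Q i) :
    ∑ s ∈ T, ln p (Sv b (x + s • u)) ≤ ∑ i ∈ range T.card, ln p (Q i) := by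
  have h := filt hL (mom b x u T) Q T.card hQ (fun y hy => mom_inj b x u T hT y hy)
  rw [ln_pi (p := p) (N := N)] at h
  rw [← Finset.sum_coe_sort T (fun s => ln p (Sv b (x + s • u)))]
  exact h

omit [Fact p.Prime] [Finite k] in
/-- moments are in the stabiliser of `u` when the earlier one vanishes -/
theorem mom_mem (b : k →ₗ[ZMod (p ^ N)] V →ₗ[ZMod (p ^ N)] W) (x u : V)
    (T : Finset (ZMod (p ^ N))) (i : ℕ) (hi : 0 < i)
    (y : ∀ s : T, Sv b (x + (s : ZMod (p ^ N)) • u))
    (hy : ∀ j < i, mom b x u T j y = 0) : mom b x u T i y ∈ Sv b u := by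
  obtain ⟨j, rfl⟩ : ∃ j, i = j + 1 := ⟨i - 1, by omega⟩
  have h := mom_rel b x u T j y
  rw [hy j (by omega)] at h
  rw [mem_Sv]
  simpa using h

end

theorem t_MI (hL : S_LEN) : S_MI := by
  intro p N _ k V W _ _ _ _ _ _ _ b x u T hT
  obtain ⟨L1, L2, L3, L4, L5, L6, L7, L8⟩ := hL p N
  have hk : ln p (Sv b u) ≤ ln p k := L6 (Sv b u) k (Sv b u).subtype (Submodule.subtype_injective _)
  rcases Nat.eq_zero_or_pos T.card with h0 | h0
  · rw [Finset.card_eq_zero] at h0
    subst h0
    simpa using hk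
  · have h := momineq hL b x u T hT (fun i => if i = 0 then ⊤ else Sv b u) (by
      intro i hi y hy
      by_cases h : i = 0
      · simp [h]
      · simp only [h, if_false]
        exact mom_mem b x u T i (Nat.pos_of_ne_zero h) y hy)
    obtain ⟨t, ht⟩ : ∃ t, T.card = t + 1 := ⟨T.card - 1, by omega⟩
    rw [ht, Finset.sum_range_succ'] at h
    have h1 : ∀ i ∈ range t, ln p ((if i + 1 = 0 then ⊤ else Sv b u : Submodule (ZMod (p ^ N)) k))
        = ln p (Sv b u) := by
      intro i _
      rw [if_neg (Nat.succ_ne_zero i)]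
    rw [Finset.sum_congr rfl h1, Finset.sum_const, Finset.card_range, smul_eq_mul] at h
    have h2 : ln p ((if 0 = 0 then ⊤ else Sv b u : Submodule (ZMod (p ^ N)) k)) ≤ ln p k := by
      rw [if_pos rfl]
      exact L6 _ k (Submodule.subtype _) (Submodule.subtype_injective _)
    rw [ht]
    have h3 : (t + 1) * ln p (Sv b u) = t * ln p (Sv b u) + ln p (Sv b u) := by ring
    rw [h3]
    omega

/-- recurrence modulo `B` -/
theorem mom_B {p N : ℕ} {k V W : Type} [AddCommGroup k]
    [Module (ZMod (p ^ N)) k] [AddCommGroup V] [Module (ZMod (p ^ N)) V] [AddCommGroup W]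
    [Module (ZMod (p ^ N)) W] (b : k →ₗ[ZMod (p ^ N)] V →ₗ[ZMod (p ^ N)] W) (x u : V)
    (B : Submodule (ZMod (p ^ N)) k)
    (T T1 : Finset (ZMod (p ^ N))) (hB : ∀ s ∈ T, s ∉ T1 → Sv b (x + s • u) ≤ B)
    (i : ℕ) (hi : T1.card ≤ i) (y : ∀ s : T, Sv b (x + (s : ZMod (p ^ N)) • u))
    (hy : ∀ j < i, mom b x u T j y = 0) : mom b x u T i y ∈ B := by
  classical
  rcases subsingleton_or_nontrivial (ZMod (p ^ N)) with hs | hs
  · have : Subsingleton k := Module.subsingleton (ZMod (p ^ N)) k
    have : mom b x u T i y = 0 := Subsingleton.elim _ _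
    rw [this]
    exact B.zero_mem
  let P : Polynomial (ZMod (p ^ N)) := ∏ s ∈ T1, (Polynomial.X - Polynomial.C s)
  have hP : P.Monic := Polynomial.monic_prod_of_monic _ _ (fun s _ => Polynomial.monic_X_sub_C s)
  have hPd : P.natDegree = T1.card := by
    rw [Polynomial.natDegree_prod_of_monic _ _ (fun s _ => Polynomial.monic_X_sub_C s)]
    simp
  let G : Polynomial (ZMod (p ^ N)) := Polynomial.X ^ (i - T1.card) * P
  have hG : G.Monic := (Polynomial.monic_X_pow _).mul hP
  have hGd : G.natDegree = i := by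
    rw [Polynomial.Monic.natDegree_mul (Polynomial.monic_X_pow _) hP, Polynomial.natDegree_X_pow, hPd]
    omega
  have hGi : G.coeff i = 1 := by
    have := hG.coeff_natDegree
    rwa [hGd] at this
  have h1 : ∑ j ∈ range (i + 1), G.coeff j • mom b x u T j y = mom b x u T i y := by
    rw [Finset.sum_range_succ, hGi, one_smul]
    rw [Finset.sum_eq_zero, zero_add]
    intro j hj
    rw [hy j (Finset.mem_range.1 hj), smul_zero]
  have h2 : ∑ j ∈ range (i + 1), G.coeff j • mom b x u T j y =
      ∑ s : T, (G.eval (s : ZMod (p ^ N))) • (y s : k) := by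
    simp_rw [mom_apply, Finset.smul_sum]
    rw [Finset.sum_comm]
    apply Finset.sum_congr rfl
    intro s _
    simp_rw [smul_smul]
    rw [← Finset.sum_smul]
    rw [← Polynomial.eval_eq_sum_range' (by omega : G.natDegree < i + 1)]
  rw [← h1, h2]
  apply Submodule.sum_mem
  intro s _
  by_cases hs1 : (s : ZMod (p ^ N)) ∈ T1
  · have : G.eval (s : ZMod (p ^ N)) = 0 := by
      rw [Polynomial.eval_mul, Polynomial.eval_prod]
      rw [Finset.prod_eq_zero hs1 (by simp), mul_zero]
    rw [this, zero_smul]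
    exact B.zero_mem
  · exact B.smul_mem _ (hB s.1 s.2 hs1 (y s).2)

theorem t_AM (hL : S_LEN) : S_AM := by
  classical
  intro p N _ k V W _ _ _ _ _ _ _ b B x u T1 T2 hdis hT hor h1 h2
  obtain ⟨L1, L2, L3, L4, L5, L6, L7, L8⟩ := hL p N
  have hk : ∀ A : Submodule (ZMod (p ^ N)) k, ln p A ≤ ln p k := fun A =>
    L6 A k A.subtype (Submodule.subtype_injective _)
  have hlow : T1.card * (ln p (Sv b u) + 1) + T2.card * ln p (Sv b u) ≤
      ∑ s ∈ T1 ∪ T2, ln p (Sv b (x + s • u)) := by
    rw [Finset.sum_union hdis]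
    apply Nat.add_le_add
    · rw [← smul_eq_mul]
      exact Finset.card_nsmul_le_sum _ _ _ h1
    · rw [← smul_eq_mul]
      exact Finset.card_nsmul_le_sum _ _ _ (fun s hs => (h2 s hs).1)
  rcases Finset.eq_empty_or_nonempty T2 with h0 | h0
  · subst h0
    have h3 := t_MI hL p N k V W b x u T1 (by
      unfold Nd
      simpa using hT)
    rw [Finset.union_empty] at hlow
    simp only [Finset.card_empty, zero_mul, add_zero] at hlow ⊢
    nlinarith
  · have hnB : ¬ Sv b u ≤ B := by
      rcases hor with h | h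
      · exact absurd h h0.ne_empty
      · exact h
    have hsB : ln p ((Sv b u ⊓ B : Submodule (ZMod (p ^ N)) k)) + 1 ≤ ln p (Sv b u) := by
      by_contra hc
      have := L5 k (Sv b u ⊓ B) (Sv b u) inf_le_left (by omega)
      exact hnB (inf_eq_left.1 this)
    have hBk : ln p B + 1 ≤ ln p k := by
      by_contra hc
      have h5 : ln p (⊤ : Submodule (ZMod (p ^ N)) k) ≤ ln p k := hk ⊤
      have := L5 k B ⊤ le_top (by omega)
      exact hnB (this ▸ le_top)
    have hcard : (T1 ∪ T2).card = T1.card + T2.card := Finset.card_union_of_disjoint hdis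
    have hmB : ∀ i, T1.card ≤ i → ∀ y, (∀ j < i, mom b x u (T1 ∪ T2) j y = 0) →
        mom b x u (T1 ∪ T2) i y ∈ B := by
      intro i hi y hy
      apply mom_B b x u B (T1 ∪ T2) T1 _ i hi y hy
      intro s hs hs1
      rcases Finset.mem_union.1 hs with h | h
      · exact absurd h hs1
      · exact (h2 s h).2
    obtain ⟨κ, hκ⟩ : ∃ κ, ln p (Sv b u) = κ + 1 := ⟨ln p (Sv b u) - 1, by omega⟩
    have hβ : ln p ((Sv b u ⊓ B : Submodule (ZMod (p ^ N)) k)) ≤ κ := by omega
    rcases Finset.eq_empty_or_nonempty T1 with h10 | h10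
    · have hm := momineq hL b x u (T1 ∪ T2) hT (fun i => if i = 0 then B else Sv b u ⊓ B) (by
        intro i hi y hy
        by_cases h : i = 0
        · simp only [h, if_true]
          subst h
          exact hmB 0 (by simp [h10]) y hy
        · simp only [h, if_false]
          exact ⟨mom_mem b x u _ i (Nat.pos_of_ne_zero h) y hy, hmB i (by simp [h10]) y hy⟩)
      subst h10
      have h2c : 0 < T2.card := Finset.card_pos.2 h0
      obtain ⟨t, ht⟩ : ∃ t, T2.card = t + 1 := ⟨T2.card - 1, by omega⟩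
      rw [hcard, Finset.card_empty, zero_add, ht, Finset.sum_range_succ'] at hm
      have h6 : ∑ i ∈ range t, ln p ((if i + 1 = 0 then B else Sv b u ⊓ B :
          Submodule (ZMod (p ^ N)) k)) ≤ t * κ := by
        rw [← smul_eq_mul]
        refine (Finset.sum_le_card_nsmul _ _ κ ?_).trans (by simp)
        intro i _
        rw [if_neg (Nat.succ_ne_zero i)]
        exact hβ
      rw [if_pos rfl] at hm
      rw [Finset.card_empty, ht, hκ] at hlow ⊢
      nlinarith
    · have h1c : 0 < T1.card := Finset.card_pos.2 h10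
      have hm := momineq hL b x u (T1 ∪ T2) hT
        (fun i => if i = 0 then ⊤ else if i < T1.card then Sv b u else Sv b u ⊓ B) (by
        intro i hi y hy
        by_cases h : i = 0
        · simp [h]
        · simp only [h, if_false]
          by_cases h' : i < T1.card
          · simp only [h', if_true]
            exact mom_mem b x u _ i (Nat.pos_of_ne_zero h) y hy
          · simp only [h', if_false]
            exact ⟨mom_mem b x u _ i (Nat.pos_of_ne_zero h) y hy, hmB i (by omega) y hy⟩)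
      obtain ⟨a, ha⟩ : ∃ a, T1.card = a + 1 := ⟨T1.card - 1, by omega⟩
      rw [hcard, Finset.sum_range_add, ha, Finset.sum_range_succ'] at hm
      have h6 : ∑ i ∈ range a, ln p ((if i + 1 = 0 then ⊤ else if i + 1 < a + 1 then Sv b u
          else Sv b u ⊓ B : Submodule (ZMod (p ^ N)) k)) ≤ a * (κ + 1) := by
        rw [← smul_eq_mul]
        refine (Finset.sum_le_card_nsmul _ _ (κ + 1) ?_).trans (by simp)
        intro i hi
        rw [if_neg (Nat.succ_ne_zero i), if_pos (by have := Finset.mem_range.1 hi; omega), hκ]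
      have h7 : ∑ i ∈ range T2.card, ln p ((if a + 1 + i = 0 then ⊤ else if a + 1 + i < a + 1 then
          Sv b u else Sv b u ⊓ B : Submodule (ZMod (p ^ N)) k)) ≤ T2.card * κ := by
        rw [← smul_eq_mul]
        refine (Finset.sum_le_card_nsmul _ _ κ ?_).trans (by simp)
        intro i hi
        rw [if_neg (by omega), if_neg (by omega)]
        exact hβ
      rw [if_pos rfl] at hm
      have h8 := hk ⊤
      rw [ha, hκ] at hlow ⊢
      nlinarith

section
variable {p N : ℕ} {k V W : Type} [AddCommGroup k]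
  [Module (ZMod (p ^ N)) k] [AddCommGroup V] [Module (ZMod (p ^ N)) V] [AddCommGroup W]
  [Module (ZMod (p ^ N)) W]

/-- first elements of chains with `n + 1` elements -/
def Ech (b : k →ₗ[ZMod (p ^ N)] V →ₗ[ZMod (p ^ N)] W) (x u : V) (n : ℕ) :
    Submodule (ZMod (p ^ N)) k where
  carrier := {a | ∃ c : ℕ → k, c 0 = a ∧ b (c 0) u = 0 ∧ ∀ i < n, b (c i) x + b (c (i + 1)) u = 0}
  add_mem' := by
    rintro a a' ⟨c, h1, h2, h3⟩ ⟨c', h1', h2', h3'⟩
    refine ⟨fun i => c i + c' i, by simp [h1, h1'], ?_, fun i hi => ?_⟩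
    · rw [map_add, LinearMap.add_apply, h2, h2', add_zero]
    · have := h3 i hi
      have := h3' i hi
      calc _ = (b (c i) x + b (c (i + 1)) u) + (b (c' i) x + b (c' (i + 1)) u) := by
            simp only [map_add, LinearMap.add_apply]; abel
        _ = 0 := by rw [h3 i hi, h3' i hi, add_zero]
  zero_mem' := ⟨fun _ => 0, by simp, by simp, by simp⟩
  smul_mem' := by
    rintro r a ⟨c, h1, h2, h3⟩
    refine ⟨fun i => r • c i, by simp [h1], ?_, fun i hi => ?_⟩
    · rw [map_smul, LinearMap.smul_apply, h2, smul_zero]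
    · simp only [map_smul, LinearMap.smul_apply]
      rw [← smul_add, h3 i hi, smul_zero]

theorem ext_chain (b : k →ₗ[ZMod (p ^ N)] V →ₗ[ZMod (p ^ N)] W) (x u : V) (l : ℕ)
    (hE : Sv b u ≤ Ech b x u (l + 1)) : ∀ j, j ≤ l → ∀ m : ℕ → k, b (m 0) u = 0 →
    (∀ i < j, b (m i) x + b (m (i + 1)) u = 0) → ∃ m' : k, b (m j) x + b m' u = 0 := by
  intro j
  induction j with
  | zero =>
    intro _ m h0 _
    obtain ⟨c, h1, h2, h3⟩ := hE ((mem_Sv b u (m 0)).2 h0)
    refine ⟨c 1, ?_⟩
    have := h3 0 (by omega)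
    rwa [h1] at this
  | succ j ih =>
    intro hj m h0 hm
    obtain ⟨c, h1, h2, h3⟩ := hE ((mem_Sv b u (m 0)).2 h0)
    obtain ⟨m', hm'⟩ := ih (by omega) (fun i => m (i + 1) - c (i + 1)) (by
      have e1 := hm 0 (by omega)
      have e2 := h3 0 (by omega)
      rw [h1] at e2
      rw [map_sub, LinearMap.sub_apply]
      have : b (m (0 + 1)) u = b (c (0 + 1)) u := by
        rw [← e1] at e2
        exact (add_left_cancel e2).symm
      rw [this, sub_self]) (by
      intro i hi
      have e1 := hm (i + 1) (by omega)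
      have e2 := h3 (i + 1) (by omega)
      simp only [map_sub, LinearMap.sub_apply]
      calc _ = (b (m (i + 1)) x + b (m (i + 1 + 1)) u) -
            (b (c (i + 1)) x + b (c (i + 1 + 1)) u) := by abel
        _ = 0 := by rw [e1, e2, sub_self])
    refine ⟨m' + c (j + 2), ?_⟩
    have e2 := h3 (j + 1) (by omega)
    simp only [map_sub, LinearMap.sub_apply] at hm'
    rw [map_add, LinearMap.add_apply]
    calc _ = (b (m (j + 1)) x - b (c (j + 1)) x + b m' u) +
          (b (c (j + 1)) x + b (c (j + 1 + 1)) u) := by abel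
      _ = 0 := by rw [hm', e2, add_zero]

end

theorem t_DEF (hL : S_LEN) : S_DEF := by
  classical
  intro p N _ k V W _ _ _ _ _ _ _ b x u T hT hs l m hl hm0 hm
  obtain ⟨L1, L2, L3, L4, L5, L6, L7, L8⟩ := hL p N
  have hk : ∀ A : Submodule (ZMod (p ^ N)) k, ln p A ≤ ln p k := fun A =>
    L6 A k A.subtype (Submodule.subtype_injective _)
  -- `k'`
  let K' : Submodule (ZMod (p ^ N)) k :=
    (LinearMap.range (b.flip u)).comap (b.flip x)
  have hK' : ∀ y, y ∈ K' ↔ ∃ z, b z u = b y x := by
    intro y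
    simp [K']
  by_cases htop : K' = ⊤
  · have : m l ∈ K' := htop ▸ Submodule.mem_top
    obtain ⟨z, hz⟩ := (hK' _).1 this
    exact ⟨-z, by rw [map_neg, LinearMap.neg_apply, hz, add_neg_cancel]⟩
  have hK'l : ln p K' + 1 ≤ ln p k := by
    by_contra hc
    have h5 : ln p (⊤ : Submodule (ZMod (p ^ N)) k) ≤ ln p k := hk ⊤
    exact htop (L5 k K' ⊤ le_top (by omega))
  have hE : Sv b u ≤ Ech b x u (l + 1) := by
    by_contra hc
    have hEle : Ech b x u (l + 1) ≤ Sv b u := by
      rintro a ⟨c, h1, h2, h3⟩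
      rw [mem_Sv, ← h1]
      exact h2
    have hEl : ln p (Ech b x u (l + 1)) + 1 ≤ ln p (Sv b u) := by
      by_contra hc'
      exact hc (L5 k _ _ hEle (by omega)).ge
    have hκk := hk (Sv b u)
    obtain ⟨q, hq⟩ : ∃ q, T.card = q + (l + 2) := ⟨T.card - (l + 2), by omega⟩
    have hlow : T.card * ln p (Sv b u) ≤ ∑ s ∈ T, ln p (Sv b (x + s • u)) := by
      rw [← smul_eq_mul]
      exact Finset.card_nsmul_le_sum _ _ _ hs
    have hmm := momineq hL b x u T hT
      (fun i => if i = 0 then K' else if i ≤ q then Ech b x u (l + 1) else Sv b u) (by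
      intro i hi y hy
      by_cases h : i = 0
      · simp only [h, if_true]
        rw [hK']
        refine ⟨- mom b x u T 1 y, ?_⟩
        have := mom_rel b x u T 0 y
        rw [map_neg, LinearMap.neg_apply, neg_eq_iff_add_eq_zero, add_comm]
        exact this
      · simp only [h, if_false]
        by_cases h' : i ≤ q
        · simp only [h', if_true]
          refine ⟨fun j => mom b x u T (i + j) y, rfl, ?_, ?_⟩
          · exact (mem_Sv b u _).1 (mom_mem b x u T i (Nat.pos_of_ne_zero h) y hy)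
          · intro j _
            exact mom_rel b x u T (i + j) y
        · simp only [h', if_false]
          exact mom_mem b x u T i (Nat.pos_of_ne_zero h) y hy)
    have e : q + (l + 2) = (q + 1) + (l + 1) := by omega
    rw [hq, e, Finset.sum_range_add, Finset.sum_range_succ', if_pos rfl] at hmm
    obtain ⟨κ, hκ⟩ : ∃ κ, ln p (Sv b u) = κ + 1 := ⟨ln p (Sv b u) - 1, by omega⟩
    have h6 : ∑ i ∈ range q, ln p ((if i + 1 = 0 then K' else if i + 1 ≤ q then Ech b x u (l + 1)
        else Sv b u : Submodule (ZMod (p ^ N)) k)) ≤ q * κ := by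
      rw [← smul_eq_mul]
      refine (Finset.sum_le_card_nsmul _ _ κ ?_).trans (by simp)
      intro i hi
      rw [if_neg (Nat.succ_ne_zero i), if_pos (by have := Finset.mem_range.1 hi; omega)]
      omega
    have h7 : ∑ i ∈ range (l + 1), ln p ((if q + 1 + i = 0 then K' else if q + 1 + i ≤ q then
        Ech b x u (l + 1) else Sv b u : Submodule (ZMod (p ^ N)) k)) ≤ (l + 1) * (κ + 1) := by
      rw [← smul_eq_mul]
      refine (Finset.sum_le_card_nsmul _ _ (κ + 1) ?_).trans (by simp)
      intro i hi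
      rw [if_neg (by omega), if_neg (by omega), hκ]
    rw [hκ] at hlow hl
    rw [hq] at hlow hl
    nlinarith
  exact ext_chain b x u l hE l le_rfl m hm0 hm

end H62.NE
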